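import Pool.Agent.N755.EK.Pot0

/-!
# The potential on the rectangle (EK/1): first and second derivatives (helper755)
-/

set_option autoImplicit false

namespace Pool.Agent.N755.EK

open Filter Topology Metric Set
open scoped Real
open Pool.Agent.N561
open Pool.Agent.W711.HT (Lg)
open Pool.Agent.N496.VS

theorem dst_comm (ψ φ : ℂ) : dst ψ φ = dst φ ψ := by
  unfold dst
  rw [mul_comm (Complex.cos (ψ / 2)), mul_comm (Complex.sin (ψ / 2) ^ 2)]

theorem sg_symm (ψ φ : ℂ) : sg ψ φ = sg φ ψ := by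
  unfold sg
  rw [dst_comm ψ φ]
  unfold TH
  rw [add_comm (RR _ ψ)]

theorem rt_comm (ψ φ : ℂ) : rt (ψ, φ) = rt (φ, ψ) := by
  unfold rt QQ
  simp only
  rw [mul_comm (Complex.sin (ψ / 2) ^ 2)]

theorem der1 {ψ φ : ℂ} (h1 : RD ψ) (h2 : RD φ) :
    HasDerivAt (fun z => sg z φ) (-(1 / (2 * π)) * Lg (2 * π * dst ψ φ) ψ) ψ := by
  have hn : ND (ψ, φ) := nd (p := (ψ, φ)) h1 h2
  have h3 := dpsi hn
  have h4 := sg_d1 hn (EE_all (p := (ψ, φ)) h1 h2)
  simp only at h3 h4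
  rw [h3] at h4
  refine h4.congr_deriv ?_
  ring

theorem der2 {ψ φ : ℂ} (h1 : RD ψ) (h2 : RD φ) :
    HasDerivAt (fun z => sg ψ z) (-(1 / (2 * π)) * Lg (2 * π * dst ψ φ) φ) φ := by
  have hn : ND (ψ, φ) := nd (p := (ψ, φ)) h1 h2
  have h3 := dphi hn
  have h4 := sg_d2 hn (EE_all (p := (ψ, φ)) h1 h2)
  simp only at h3 h4
  rw [h3] at h4
  refine h4.congr_deriv ?_
  ring

/-- the inverse hyperbolic sine -/
noncomputable def ash' (w : ℂ) : ℂ := Complex.log (w + (1 + w ^ 2) ^ (1 / 2 : ℂ))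

theorem sq_root {z : ℂ} (h : 0 < z.re) : (z ^ 2) ^ (1 / 2 : ℂ) = z := by
  rw [one_div]
  exact Complex.sq_cpow_two_inv h

theorem log_sq {z : ℂ} (h : 0 < z.re) : Complex.log (z ^ 2) = 2 * Complex.log z := by
  have h1 : |z.arg| < π / 2 := Complex.abs_arg_lt_pi_div_two_iff.2 (Or.inl h)
  obtain ⟨h2, h3⟩ := abs_lt.1 h1
  have h4 : (Complex.log z).im = z.arg := Complex.log_im z
  have hz : z ≠ 0 := by
    rintro rfl
    simp at h
  have e : z ^ 2 = Complex.exp (2 * Complex.log z) := by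
    rw [two_mul, Complex.exp_add, Complex.exp_log hz, sq]
  have e2 : (2 * Complex.log z).im = 2 * z.arg := by
    simp [Complex.log_im]
  rw [e, Complex.log_exp]
  · rw [e2]
    linarith
  · rw [e2]
    linarith

/-- the relations between the trigonometric functions of the two half variables -/
structure TR (ψ φ s c s' c' r : ℂ) : Prop where
  hs : s = Complex.sin (ψ / 2)
  hc : c = Complex.cos (ψ / 2)
  hs' : s' = Complex.sin (φ / 2)
  hc' : c' = Complex.cos (φ / 2)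
  hr : r = rt (ψ, φ)
  c0 : c ≠ 0
  r0 : r ≠ 0
  sc : s ^ 2 + c ^ 2 = 1
  sc' : s' ^ 2 + c' ^ 2 = 1
  rr : r ^ 2 = 1 - s ^ 2 * s' ^ 2
  pos : 0 < (r / c).re

theorem trm {ψ φ : ℂ} (h1 : RD ψ) (h2 : RD φ) : ∃ s c s' c' r, TR ψ φ s c s' c' r := by
  obtain ⟨a1, a2, a3, a4⟩ := cos_bd h1
  obtain ⟨r1, r2, r3, r4, r5⟩ := rt_parts (p := (ψ, φ)) h1 h2
  have c0 : Complex.cos (ψ / 2) ≠ 0 := by
    intro h
    rw [h, Complex.zero_re] at a1
    norm_num at a1
  have r0 : rt (ψ, φ) ≠ 0 := by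
    intro h
    rw [h, Complex.zero_re] at r1
    norm_num at r1
  refine ⟨_, _, _, _, _, rfl, rfl, rfl, rfl, rfl, c0, r0, Complex.sin_sq_add_cos_sq _,
    Complex.sin_sq_add_cos_sq _, rt_sq, ?_⟩
  rw [div_re']
  apply div_pos _ (Complex.normSq_pos.2 c0)
  have k1 := mul_le_mul r1 a1 (by norm_num) (by linarith)
  have k2 : |(rt (ψ, φ)).im * (Complex.cos (ψ / 2)).im| ≤ 39 / 1000 * (8 / 125) := by
    rw [abs_mul]
    exact mul_le_mul r3 a3 (abs_nonneg _) (by norm_num)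
  have k3 := (abs_le.1 k2).1
  norm_num at k1 k3
  linarith

section

variable {ψ φ s c s' c' r : ℂ} (h : TR ψ φ s c s' c' r)
include h

theorem TR.prod : (r + s * c') * (r - s * c') = c ^ 2 := by
  linear_combination h.rr - s ^ 2 * h.sc' - h.sc

theorem TR.n1 : r + s * c' ≠ 0 := by
  intro h0
  have := h.prod
  rw [h0, zero_mul] at this
  exact h.c0 (pow_eq_zero_iff two_ne_zero |>.1 this.symm)

theorem TR.n2 : r - s * c' ≠ 0 := by
  intro h0
  have := h.prod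
  rw [h0, mul_zero] at this
  exact h.c0 (pow_eq_zero_iff two_ne_zero |>.1 this.symm)

theorem TR.wsq : 1 + (s / c * c') ^ 2 = (r / c) ^ 2 := by
  have := h.c0
  have h1 : c ^ 2 + s ^ 2 * c' ^ 2 = r ^ 2 := by
    linear_combination -h.prod
  field_simp
  linear_combination h1

theorem TR.root : (1 + (s / c * c') ^ 2) ^ (1 / 2 : ℂ) = r / c := by
  rw [h.wsq]
  exact sq_root h.pos

theorem TR.slit : 1 + (s / c * c') ^ 2 ∈ Complex.slitPlane := by
  rw [h.wsq, Complex.mem_slitPlane_iff_arg]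
  have hz : r / c ≠ 0 := div_ne_zero h.r0 h.c0
  have h1 : |(r / c).arg| < π / 2 := Complex.abs_arg_lt_pi_div_two_iff.2 (Or.inl h.pos)
  obtain ⟨h2, h3⟩ := abs_lt.1 h1
  have e : ((r / c) ^ 2).arg = 2 * (r / c).arg := by
    rw [← Complex.log_im, log_sq h.pos]
    simp [Complex.log_im]
  refine ⟨?_, pow_ne_zero 2 hz⟩
  rw [e]
  linarith

theorem TR.Xre : 0 < (s / c * c' + r / c).re := by
  have hc := h.c0
  have e1 : s / c * c' + r / c = (r + s * c') / c := by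
    field_simp
    ring
  have hX : s / c * c' + r / c ≠ 0 := by
    rw [e1]
    exact div_ne_zero h.n1 hc
  have e2 : (s / c * c' + r / c)⁻¹ = (r - s * c') / c := by
    rw [e1, inv_div, div_eq_div_iff h.n1 hc]
    linear_combination -h.prod
  have e3 : (s / c * c' + r / c) + (s / c * c' + r / c)⁻¹ = 2 * (r / c) := by
    rw [e2]
    field_simp
    ring
  have h1 := congrArg Complex.re e3
  rw [Complex.add_re, Complex.inv_re] at h1
  have h2 : (2 * (r / c)).re = 2 * (r / c).re := by simp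
  rw [h2] at h1
  have h3 := h.pos
  have hn : 0 < Complex.normSq (s / c * c' + r / c) := Complex.normSq_pos.2 hX
  by_contra h4
  push Not at h4
  have h5 : (s / c * c' + r / c).re / Complex.normSq (s / c * c' + r / c) ≤ 0 :=
    div_nonpos_of_nonpos_of_nonneg h4 hn.le
  linarith

theorem TR.tan : Complex.tan (ψ / 2) * Complex.cos (φ / 2) = s / c * c' := by
  rw [Complex.tan_eq_sin_div_cos, h.hs, h.hc, h.hc']

theorem TR.ash : ash' (Complex.tan (ψ / 2) * Complex.cos (φ / 2)) =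
    Complex.log (s / c * c' + r / c) := by
  unfold ash'
  rw [h.tan, h.root]

theorem TR.Lg (h1 : RD ψ) (h2 : RD φ) : Lg (2 * π * dst ψ φ) ψ =
    2 * ash' (Complex.tan (ψ / 2) * Complex.cos (φ / 2)) := by
  have hn : ND (ψ, φ) := nd (p := (ψ, φ)) h1 h2
  have hA : Complex.sin (aa (ψ, φ)) = ww (ψ, φ) * Complex.cos (aa (ψ, φ)) := at_sin hn.wre
  have hA0 : Complex.cos (aa (ψ, φ)) ≠ 0 := at_cos_ne hn.wre
  have hw : ww (ψ, φ) = c * c' / r := by
    rw [ww_def, h.hc, h.hc', h.hr]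
  have hc := h.c0
  have hr := h.r0
  have n1 := h.n1
  have n2 := h.n2
  rw [h.ash, ← log_sq h.Xre, Lg_eq]
  congr 1
  rw [Complex.cos_sub, Complex.cos_add, hA, ← h.hs, ← h.hc, hw]
  have e1 : Complex.cos (aa (ψ, φ)) * c + c * c' / r * Complex.cos (aa (ψ, φ)) * s =
      Complex.cos (aa (ψ, φ)) * c / r * (r + s * c') := by
    field_simp
  have e2 : Complex.cos (aa (ψ, φ)) * c - c * c' / r * Complex.cos (aa (ψ, φ)) * s =
      Complex.cos (aa (ψ, φ)) * c / r * (r - s * c') := by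
    field_simp
  have e3 : s / c * c' + r / c = (r + s * c') / c := by
    field_simp
    ring
  rw [e1, e2, e3, mul_div_mul_left _ _ (div_ne_zero (mul_ne_zero hA0 hc) hr), div_pow,
    div_eq_div_iff n2 (pow_ne_zero 2 hc), ← h.prod]
  ring

end

theorem e1' {ψ φ : ℂ} (h1 : RD ψ) (h2 : RD φ) : deriv (fun w => sg w φ) ψ =
    -(1 / π) * ash' (Complex.tan (ψ / 2) * Complex.cos (φ / 2)) := by
  obtain ⟨s, c, s', c', r, h⟩ := trm h1 h2
  rw [(der1 h1 h2).deriv, h.Lg h1 h2]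
  have := pi_ne
  field_simp

/-- the derivative of the inverse hyperbolic sine -/
theorem ash_deriv {w : ℂ} (h1 : 1 + w ^ 2 ∈ Complex.slitPlane)
    (h2 : 0 < (w + (1 + w ^ 2) ^ (1 / 2 : ℂ)).re) :
    HasDerivAt ash' (1 / (1 + w ^ 2) ^ (1 / 2 : ℂ)) w := by
  have k1 : HasDerivAt (fun w : ℂ => 1 + w ^ 2) (2 * w) w := by
    have := ((hasDerivAt_id w).pow 2).const_add (1 : ℂ)
    refine this.congr_deriv ?_
    simp
  have k2 := k1.cpow_const (c := (1 / 2 : ℂ)) h1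
  have h0 := Complex.slitPlane_ne_zero h1
  have hr : (1 + w ^ 2) ^ (1 / 2 : ℂ) ≠ 0 := by
    rw [Ne, Complex.cpow_eq_zero_iff]
    exact fun h => h0 h.1
  have hsq : ((1 + w ^ 2) ^ (1 / 2 : ℂ)) ^ 2 = 1 + w ^ 2 := by
    rw [← Complex.cpow_nat_mul]
    norm_num
  have k3 := ((hasDerivAt_id w).add k2).clog (by
    rw [Complex.mem_slitPlane_iff]
    left
    exact h2)
  have hX : w + (1 + w ^ 2) ^ (1 / 2 : ℂ) ≠ 0 := by
    intro h
    rw [h] at h2
    simp at h2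
  refine k3.congr_deriv ?_
  rw [Complex.cpow_sub _ _ h0, Complex.cpow_one]
  obtain ⟨R, hR⟩ : ∃ R, R = (1 + w ^ 2) ^ (1 / 2 : ℂ) := ⟨_, rfl⟩
  rw [← hR] at hr hsq hX ⊢
  have e : (1 + 1 / 2 * (R / (1 + w ^ 2)) * (2 * w)) / (w + R) = 1 / R := by
    rw [← hsq]
    field_simp
    ring
  have hX' : (id + fun x : ℂ => (1 + x ^ 2) ^ (1 / 2 : ℂ) : ℂ → ℂ) w = w + R := by
    rw [hR]
    rfl
  rw [hX']
  exact e

theorem RD_near {ψ : ℂ} (h : RD ψ) : ∀ᶠ z in 𝓝 ψ, RD z := RD_open.mem_nhds h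

theorem half_deriv (z : ℂ) : HasDerivAt (fun z : ℂ => z / 2) (1 / 2 : ℂ) z :=
  (hasDerivAt_id z).div_const 2

theorem ash_comp {ψ φ s c s' c' r : ℂ} (h : TR ψ φ s c s' c' r) {f : ℂ → ℂ} {f' x : ℂ}
    (hf : HasDerivAt f f' x) (hx : f x = s / c * c') :
    HasDerivAt (fun z => -(1 / π) * ash' (f z)) (-(1 / π) * (c / r * f')) x := by
  have h1 : HasDerivAt ash' (1 / (1 + (s / c * c') ^ 2) ^ (1 / 2 : ℂ)) (f x) := by
    rw [hx]
    apply ash_deriv h.slit
    rw [h.root]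
    exact h.Xre
  rw [h.root, one_div_div] at h1
  exact (h1.comp x hf).const_mul _

theorem der11 {ψ φ : ℂ} (h1 : RD ψ) (h2 : RD φ) :
    HasDerivAt (fun z => deriv (fun w => sg w φ) z)
    (-(1 / (2 * π)) * (Complex.cos (φ / 2) / (Complex.cos (ψ / 2) * rt (ψ, φ)))) ψ := by
  obtain ⟨s, c, s', c', r, h⟩ := trm h1 h2
  have hc := h.c0
  have hr := h.r0
  have hpi := pi_ne
  have k1 : HasDerivAt (fun z : ℂ => Complex.tan (z / 2)) (1 / c ^ 2 * (1 / 2)) ψ := by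
    have k2 : HasDerivAt Complex.tan (1 / Complex.cos (ψ / 2) ^ 2) (ψ / 2) :=
      Complex.hasDerivAt_tan (by rw [← h.hc]; exact hc)
    rw [← h.hc] at k2
    exact k2.comp ψ (half_deriv ψ)
  have k3 := ash_comp h (k1.mul_const (Complex.cos (φ / 2))) h.tan
  have k4 : (fun z => deriv (fun w => sg w φ) z) =ᶠ[𝓝 ψ] fun z =>
      -(1 / π) * ash' (Complex.tan (z / 2) * Complex.cos (φ / 2)) := by
    filter_upwards [RD_near h1] with z hz
    exact e1' hz h2
  refine (k3.congr_of_eventuallyEq k4).congr_deriv ?_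
  rw [← h.hc, ← h.hc', ← h.hr]
  field_simp

theorem der12 {ψ φ : ℂ} (h1 : RD ψ) (h2 : RD φ) :
    HasDerivAt (fun z => deriv (fun w => sg w z) ψ)
    (1 / (2 * π) * (Complex.sin (ψ / 2) * Complex.sin (φ / 2) / rt (ψ, φ))) φ := by
  obtain ⟨s, c, s', c', r, h⟩ := trm h1 h2
  have hc := h.c0
  have hr := h.r0
  have hpi := pi_ne
  have k1 : HasDerivAt (fun z : ℂ => Complex.cos (z / 2)) (-s' * (1 / 2)) φ := by
    have k2 : HasDerivAt Complex.cos (-Complex.sin (φ / 2)) (φ / 2) := Complex.hasDerivAt_cos _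
    rw [← h.hs'] at k2
    exact k2.comp φ (half_deriv φ)
  have k3 := ash_comp h (k1.const_mul (Complex.tan (ψ / 2))) h.tan
  have k4 : (fun z => deriv (fun w => sg w z) ψ) =ᶠ[𝓝 φ] fun z =>
      -(1 / π) * ash' (Complex.tan (ψ / 2) * Complex.cos (z / 2)) := by
    filter_upwards [RD_near h2] with z hz
    exact e1' h1 hz
  refine (k3.congr_of_eventuallyEq k4).congr_deriv ?_
  rw [Complex.tan_eq_sin_div_cos, ← h.hc, ← h.hs, ← h.hs', ← h.hr]
  field_simp

theorem s2_eq (ψ φ : ℂ) : deriv (fun w => sg ψ w) φ = deriv (fun w => sg w ψ) φ := by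
  congr 1
  funext w
  exact sg_symm ψ w

theorem der21 {ψ φ : ℂ} (h1 : RD ψ) (h2 : RD φ) :
    HasDerivAt (fun z => deriv (fun w => sg z w) φ)
    (1 / (2 * π) * (Complex.sin (ψ / 2) * Complex.sin (φ / 2) / rt (ψ, φ))) ψ := by
  have k := der12 h2 h1
  rw [mul_comm (Complex.sin (φ / 2)), rt_comm φ ψ] at k
  refine k.congr_of_eventuallyEq (Eventually.of_forall fun z => ?_)
  exact s2_eq z φ

theorem der22 {ψ φ : ℂ} (h1 : RD ψ) (h2 : RD φ) :
    HasDerivAt (fun z => deriv (fun w => sg ψ w) z)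
    (-(1 / (2 * π)) * (Complex.cos (ψ / 2) / (Complex.cos (φ / 2) * rt (ψ, φ)))) φ := by
  have k := der11 h2 h1
  rw [rt_comm φ ψ] at k
  refine k.congr_of_eventuallyEq (Eventually.of_forall fun z => ?_)
  exact s2_eq ψ z

theorem e2' {ψ φ : ℂ} (h1 : RD ψ) (h2 : RD φ) : deriv (fun w => sg ψ w) φ =
    -(1 / π) * ash' (Complex.tan (φ / 2) * Complex.cos (ψ / 2)) := by
  rw [s2_eq]
  exact e1' h2 h1

end Pool.Agent.N755.EK
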