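import Pool.Agent.N561.EK.Stm
import Pool.Agent.N755.EK.Pot1
import Pool.Agent.N218.VS.Sg

/-!
# The potential on the rectangle (EK/1): proof of `S_POT` (helper755)
-/

set_option autoImplicit false

namespace Pool.Agent.N755.EK

open Filter Topology Metric Set
open scoped Real
open Pool.Agent.N561
open Pool.Agent.W711.HT (Lg bet)
open Pool.Agent.N561.EK (DD POT s1 s2 rr ash)

theorem mem_RD {w : ℂ} (h : w ∈ DD) : RD w := h

theorem zero' : sg 0 0 = ((2 * bet : ℝ) : ℂ) := by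
  have h := Pool.Agent.N218.VS.sg_im 0
  rw [Complex.ofReal_zero, zero_mul] at h
  rw [h]
  exact Pool.Agent.N218.VS.KK_zero

theorem rr_eq (ψ φ : ℂ) : rr ψ φ = rt (ψ, φ) := rfl

theorem ash_eq (w : ℂ) : ash w = ash' w := rfl

theorem s1_eq (ψ φ : ℂ) : s1 ψ φ = deriv (fun w => sg w φ) ψ := rfl

theorem s2_eq' (ψ φ : ℂ) : s2 ψ φ = deriv (fun w => sg ψ w) φ := rfl

theorem f_san : DifferentiableOn ℂ (fun p : ℂ × ℂ => sg p.1 p.2) (DD ×ˢ DD) := by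
  intro p hp
  exact (sg_an (nd (p := p) (mem_RD hp.1) (mem_RD hp.2))).differentiableAt.differentiableWithinAt

theorem f_dan : DifferentiableOn ℂ (fun p : ℂ × ℂ => dst p.1 p.2) (DD ×ˢ DD) := by
  intro p hp
  have h3 : DifferentiableAt ℂ Pool.Agent.N496.VS.aa p :=
    (nd (p := p) (mem_RD hp.1) (mem_RD hp.2)).ana.differentiableAt
  have h4 : DifferentiableAt ℂ (fun p : ℂ × ℂ => dst p.1 p.2) p := h3.const_mul (1 / π : ℂ)
  exact h4.differentiableWithinAt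

theorem f_den {ψ φ : ℂ} (h1 : ψ ∈ DD) (h2 : φ ∈ DD) : 2 + Complex.cos ψ + Complex.cos φ ≠ 0 := by
  have h := den_nz (nd (p := (ψ, φ)) (mem_RD h1) (mem_RD h2))
  simp only at h
  exact h

theorem f_dcr {ψ φ : ℂ} (h1 : ψ ∈ DD) (h2 : φ ∈ DD) : HasDerivAt (TH ψ φ) 0 (dst ψ φ) := by
  have h := TH_crit (nd (p := (ψ, φ)) (mem_RD h1) (mem_RD h2))
    (EE_all (p := (ψ, φ)) (mem_RD h1) (mem_RD h2))
  simp only at h
  exact h

theorem f_dneg {ψ φ : ℂ} (h1 : ψ ∈ DD) (h2 : φ ∈ DD) :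
    (deriv (deriv (TH ψ φ)) (dst ψ φ)).re < 0 := by
  have h3 := TH_deriv2 (nd (p := (ψ, φ)) (mem_RD h1) (mem_RD h2))
  have h4 := TF_neg (p := (ψ, φ)) (mem_RD h1) (mem_RD h2)
  simp only at h3 h4
  rw [h3]
  exact h4

theorem pot : Pool.Agent.N561.EK.S_POT := by
  refine ⟨f_san, f_dan, sg_symm, Pool.Agent.N496.VS.sg_neg, zero', ?_, ?_, ?_, ?_, ?_, ?_, ?_, ?_,
    ?_, ?_, ?_, ?_, ?_⟩
  · intro ψ h1 φ h2
    rw [rr_eq]
    exact rt_re (p := (ψ, φ)) (mem_RD h1) (mem_RD h2)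
  · exact fun ψ h1 φ h2 => der1 (mem_RD h1) (mem_RD h2)
  · exact fun ψ h1 φ h2 => der2 (mem_RD h1) (mem_RD h2)
  · intro ψ h1 φ h2
    rw [s1_eq, ash_eq]
    exact e1' (mem_RD h1) (mem_RD h2)
  · intro ψ h1 φ h2
    rw [s2_eq', ash_eq]
    exact e2' (mem_RD h1) (mem_RD h2)
  · intro ψ h1 φ h2
    simp only [s1_eq, rr_eq]
    exact der11 (mem_RD h1) (mem_RD h2)
  · intro ψ h1 φ h2
    simp only [s1_eq, rr_eq]
    exact der12 (mem_RD h1) (mem_RD h2)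
  · intro ψ h1 φ h2
    simp only [s2_eq', rr_eq]
    exact der21 (mem_RD h1) (mem_RD h2)
  · intro ψ h1 φ h2
    simp only [s2_eq', rr_eq]
    exact der22 (mem_RD h1) (mem_RD h2)
  · exact fun ψ h1 φ h2 => f_dcos (nd (p := (ψ, φ)) (mem_RD h1) (mem_RD h2))
  · exact fun ψ h1 φ h2 => f_den h1 h2
  · exact fun ψ h1 φ h2 => f_dcr h1 h2
  · exact fun ψ h1 φ h2 => f_dneg h1 h2

end Pool.Agent.N755.EK
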