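import Pool.Agent.N496.VS.Fin

/-!
# The potential on the rectangle (EK/1): estimates (helper755)
-/

set_option autoImplicit false

namespace Pool.Agent.N755.EK

open Filter Topology Metric Set
open scoped Real
open Pool.Agent.N561
open Pool.Agent.N496.VS

/-- the rectangle -/
def RD (w : ℂ) : Prop := |w.re| < 21 / 20 ∧ |w.im| < 1 / 4

theorem RD_zero : RD 0 := by
  constructor <;> simp

theorem RD_mul {w : ℂ} (h : RD w) {t : ℝ} (h0 : 0 ≤ t) (h1 : t ≤ 1) : RD ((t : ℂ) * w) := by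
  have e1 : ((t : ℂ) * w).re = t * w.re := by simp
  have e2 : ((t : ℂ) * w).im = t * w.im := by simp
  constructor
  · rw [e1, abs_mul, abs_of_nonneg h0]
    have := h.1
    have h2 := abs_nonneg w.re
    nlinarith
  · rw [e2, abs_mul, abs_of_nonneg h0]
    have := h.2
    have h2 := abs_nonneg w.im
    nlinarith

theorem RD_open : IsOpen {w : ℂ | RD w} := by
  have h1 : IsOpen {w : ℂ | |w.re| < 21 / 20} := isOpen_lt (by fun_prop) continuous_const
  have h2 : IsOpen {w : ℂ | |w.im| < 1 / 4} := isOpen_lt (by fun_prop) continuous_const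
  exact h1.inter h2

theorem cosh_le {y : ℝ} (h : |y| ≤ 1 / 8) : Real.cosh y ≤ 128 / 127 := by
  have h1 := Real.cosh_le_exp_half_sq y
  have h2 : y ^ 2 / 2 ≤ 1 / 128 := by
    have h3 : |y| ^ 2 ≤ (1 / 8 : ℝ) ^ 2 := pow_le_pow_left₀ (abs_nonneg y) h 2
    rw [sq_abs] at h3
    linarith
  have h3 : Real.exp (1 / 128) ≤ 128 / 127 := by
    have h4 := Real.add_one_le_exp (-(1 / 128 : ℝ))
    have h5 := Real.exp_pos (1 / 128 : ℝ)
    have h6 : Real.exp (1 / 128) * Real.exp (-(1 / 128)) = 1 := by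
      rw [← Real.exp_add]
      simp
    nlinarith
  exact h1.trans ((Real.exp_le_exp.2 h2).trans h3)

theorem cos_ge {x : ℝ} (h : |x| ≤ 21 / 40) : 431 / 500 ≤ Real.cos x := by
  have h1 := Real.one_sub_sq_div_two_le_cos (x := x)
  have h3 : |x| ^ 2 ≤ (21 / 40 : ℝ) ^ 2 := pow_le_pow_left₀ (abs_nonneg x) h 2
  rw [sq_abs] at h3
  norm_num at h3
  linarith

theorem half_bds {w : ℂ} (h : RD w) : 431 / 500 ≤ Real.cos (w / 2).re ∧
    Real.sin (w / 2).re ^ 2 ≤ 257 / 1000 ∧ 1 ≤ Real.cosh (w / 2).im ∧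
    Real.cosh (w / 2).im ≤ 128 / 127 ∧ Real.sinh (w / 2).im ^ 2 ≤ 159 / 10000 := by
  have e1 : (w / 2).re = w.re / 2 := by simp
  have e2 : (w / 2).im = w.im / 2 := by simp
  have h1 := h.1
  have h2 := h.2
  have a1 : |w.re / 2| ≤ 21 / 40 := by
    rw [abs_div, abs_two]
    linarith
  have a2 : |w.im / 2| ≤ 1 / 8 := by
    rw [abs_div, abs_two]
    linarith
  rw [e1, e2]
  have h3 := cos_ge a1
  have h4 := cosh_le a2
  have h5 := Real.one_le_cosh (w.im / 2)
  have h6 := Real.sin_sq_add_cos_sq (w.re / 2)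
  have h7 := Real.cosh_sq (w.im / 2)
  refine ⟨h3, ?_, h5, h4, ?_⟩
  · nlinarith
  · nlinarith

theorem sin_bd {w : ℂ} (h : RD w) : ‖Complex.sin (w / 2)‖ ^ 2 ≤ 273 / 1000 := by
  obtain ⟨h1, h2, h3, h4, h5⟩ := half_bds h
  rw [Complex.sq_norm, Complex.normSq_apply, sin_re, sin_im]
  have h6 := Real.sin_sq_add_cos_sq (w / 2).re
  have h7 := Real.cosh_sq (w / 2).im
  have e : Real.sin (w / 2).re * Real.cosh (w / 2).im * (Real.sin (w / 2).re *
      Real.cosh (w / 2).im) + Real.cos (w / 2).re * Real.sinh (w / 2).im *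
      (Real.cos (w / 2).re * Real.sinh (w / 2).im) =
      Real.sin (w / 2).re ^ 2 + Real.sinh (w / 2).im ^ 2 := by
    linear_combination Real.sin (w / 2).re ^ 2 * h7 + Real.sinh (w / 2).im ^ 2 * h6
  rw [e]
  linarith

theorem cos_bd {w : ℂ} (h : RD w) : 431 / 500 ≤ (Complex.cos (w / 2)).re ∧
    (Complex.cos (w / 2)).re ≤ 128 / 127 ∧ |(Complex.cos (w / 2)).im| ≤ 8 / 125 ∧
    Complex.normSq (Complex.cos (w / 2)) ≤ 1016 / 1000 := by
  obtain ⟨h1, h2, h3, h4, h5⟩ := half_bds h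
  have h6 := Real.sin_sq_add_cos_sq (w / 2).re
  have h7 := Real.cosh_sq (w / 2).im
  have h8 := Real.cos_le_one (w / 2).re
  refine ⟨?_, ?_, ?_, ?_⟩
  · rw [cos_re]
    nlinarith
  · rw [cos_re]
    nlinarith
  · rw [cos_im, abs_neg]
    apply abs_le_of_sq_le_sq _ (by norm_num)
    rw [mul_pow]
    have := mul_le_mul h2 h5 (sq_nonneg _) (by norm_num)
    refine this.trans (by norm_num)
  · rw [Complex.normSq_apply, cos_re, cos_im]
    have e : Real.cos (w / 2).re * Real.cosh (w / 2).im * (Real.cos (w / 2).re *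
        Real.cosh (w / 2).im) + -(Real.sin (w / 2).re * Real.sinh (w / 2).im) *
        -(Real.sin (w / 2).re * Real.sinh (w / 2).im) =
        Real.cos (w / 2).re ^ 2 + Real.sinh (w / 2).im ^ 2 := by
      linear_combination Real.cos (w / 2).re ^ 2 * h7 + Real.sinh (w / 2).im ^ 2 * h6
    rw [e]
    nlinarith

/-- the radicand -/
noncomputable def QQ (p : ℂ × ℂ) : ℂ := 1 - Complex.sin (p.1 / 2) ^ 2 * Complex.sin (p.2 / 2) ^ 2

/-- the root -/
noncomputable def rt (p : ℂ × ℂ) : ℂ := QQ p ^ (1 / 2 : ℂ)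

theorem QQ_bd {p : ℂ × ℂ} (h1 : RD p.1) (h2 : RD p.2) : ‖QQ p - 1‖ ≤ 75 / 1000 := by
  have e : QQ p - 1 = -(Complex.sin (p.1 / 2) ^ 2 * Complex.sin (p.2 / 2) ^ 2) := by
    unfold QQ
    ring
  rw [e, norm_neg, norm_mul, norm_pow, norm_pow]
  have := mul_le_mul (sin_bd h1) (sin_bd h2) (sq_nonneg _) (by norm_num)
  refine this.trans (by norm_num)

theorem QQ_slit {p : ℂ × ℂ} (h1 : RD p.1) (h2 : RD p.2) : QQ p ∈ Complex.slitPlane := by
  rw [Complex.mem_slitPlane_iff]
  left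
  have h3 := (Complex.abs_re_le_norm (QQ p - 1)).trans (QQ_bd h1 h2)
  rw [Complex.sub_re, Complex.one_re] at h3
  have := (abs_le.1 h3).1
  linarith

theorem rt_sq {p : ℂ × ℂ} : rt p ^ 2 = QQ p := by
  unfold rt
  rw [← Complex.cpow_nat_mul]
  norm_num

/-- principal roots have positive real part -/
theorem root_re {z : ℂ} (h : z ∈ Complex.slitPlane) : 0 < (z ^ (1 / 2 : ℂ)).re := by
  have h0 := Complex.slitPlane_ne_zero h
  rw [Complex.cpow_def_of_ne_zero h0, Complex.exp_re]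
  apply mul_pos (Real.exp_pos _)
  have h1 : |z.arg| < π := by
    rw [abs_lt]
    refine ⟨Complex.neg_pi_lt_arg z, lt_of_le_of_ne (Complex.arg_le_pi z) ?_⟩
    exact Complex.slitPlane_arg_ne_pi h
  have h2 : (Complex.log z * (1 / 2 : ℂ)).im = z.arg / 2 := by
    have : Complex.log z * (1 / 2 : ℂ) = Complex.log z / 2 := by ring
    rw [this]
    simp [Complex.log_im]
  rw [h2]
  obtain ⟨h3, h4⟩ := abs_lt.1 h1
  apply Real.cos_pos_of_mem_Ioo
  constructor <;> linarith

theorem rt_re {p : ℂ × ℂ} (h1 : RD p.1) (h2 : RD p.2) : 0 < (rt p).re := root_re (QQ_slit h1 h2)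

theorem rt_bd {p : ℂ × ℂ} (h1 : RD p.1) (h2 : RD p.2) : ‖rt p - 1‖ ≤ 39 / 1000 := by
  have h3 := rt_re h1 h2
  have h4 : ‖rt p - 1‖ * ‖rt p + 1‖ ≤ 75 / 1000 := by
    rw [← norm_mul]
    have : (rt p - 1) * (rt p + 1) = QQ p - 1 := by
      rw [← rt_sq]
      ring
    rw [this]
    exact QQ_bd h1 h2
  have h5 : (rt p).re + 1 ≤ ‖rt p + 1‖ := by
    have := Complex.re_le_norm (rt p + 1)
    rwa [Complex.add_re, Complex.one_re] at this
  have h6 := norm_nonneg (rt p - 1)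
  have h7 : ‖rt p - 1‖ ≤ 75 / 1000 := by nlinarith
  have h8 := (Complex.abs_re_le_norm (rt p - 1)).trans h7
  rw [Complex.sub_re, Complex.one_re] at h8
  have h9 := (abs_le.1 h8).1
  nlinarith

theorem rt_parts {p : ℂ × ℂ} (h1 : RD p.1) (h2 : RD p.2) : 961 / 1000 ≤ (rt p).re ∧
    (rt p).re ≤ 1039 / 1000 ∧ |(rt p).im| ≤ 39 / 1000 ∧ 923 / 1000 ≤ Complex.normSq (rt p) ∧
    Complex.normSq (rt p) ≤ 108 / 100 := by
  have h3 := rt_bd h1 h2
  have h4 := (Complex.abs_re_le_norm (rt p - 1)).trans h3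
  have h5 := (Complex.abs_im_le_norm (rt p - 1)).trans h3
  rw [Complex.sub_re, Complex.one_re] at h4
  rw [Complex.sub_im, Complex.one_im, sub_zero] at h5
  obtain ⟨h6, h7⟩ := abs_le.1 h4
  refine ⟨by linarith, by linarith, h5, ?_, ?_⟩
  · rw [Complex.normSq_apply]
    nlinarith [mul_self_nonneg (rt p).im]
  · rw [← Complex.sq_norm]
    have h8 : ‖rt p‖ ≤ 1039 / 1000 := by
      have : rt p = (rt p - 1) + 1 := by ring
      rw [this]
      refine (norm_add_le _ _).trans ?_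
      rw [norm_one]
      linarith
    have h9 := norm_nonneg (rt p)
    nlinarith

theorem ww_def (p : ℂ × ℂ) : ww p = Complex.cos (p.1 / 2) * Complex.cos (p.2 / 2) / rt p := rfl

theorem div_re' (a b : ℂ) : (a / b).re = (a.re * b.re + a.im * b.im) / Complex.normSq b := by
  rw [Complex.div_re]
  ring

theorem ww_bd {p : ℂ × ℂ} (h1 : RD p.1) (h2 : RD p.2) : 65 / 100 ≤ (ww p).re ∧
    Complex.normSq (ww p) ≤ 112 / 100 := by
  obtain ⟨a1, a2, a3, a4⟩ := cos_bd h1
  obtain ⟨b1, b2, b3, b4⟩ := cos_bd h2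
  obtain ⟨r1, r2, r3, r4, r5⟩ := rt_parts h1 h2
  rw [ww_def]
  set c := Complex.cos (p.1 / 2)
  set c' := Complex.cos (p.2 / 2)
  set r := rt p
  have hn : 0 < Complex.normSq r := by linarith
  constructor
  · rw [div_re', le_div_iff₀ hn, Complex.mul_re, Complex.mul_im]
    have k1 : 738 / 1000 ≤ c.re * c'.re - c.im * c'.im := by
      have k2 : 431 / 500 * (431 / 500) ≤ c.re * c'.re := mul_le_mul a1 b1 (by norm_num) (by linarith)
      have k3 : |c.im * c'.im| ≤ 8 / 125 * (8 / 125) := by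
        rw [abs_mul]
        exact mul_le_mul a3 b3 (abs_nonneg _) (by norm_num)
      have := (abs_le.1 k3).2
      norm_num at k2 this
      linarith
    have k4 : |c.re * c'.im + c.im * c'.re| ≤ 130 / 1000 := by
      refine (abs_add_le _ _).trans ?_
      rw [abs_mul, abs_mul]
      have m1 : |c.re| ≤ 128 / 127 := abs_le.2 ⟨by linarith, a2⟩
      have m2 : |c'.re| ≤ 128 / 127 := abs_le.2 ⟨by linarith, b2⟩
      have m3 := mul_le_mul m1 b3 (abs_nonneg _) (by norm_num)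
      have m4 := mul_le_mul a3 m2 (abs_nonneg _) (by norm_num)
      norm_num at m3 m4
      linarith
    have k5 : |(c.re * c'.im + c.im * c'.re) * r.im| ≤ 130 / 1000 * (39 / 1000) := by
      rw [abs_mul]
      exact mul_le_mul k4 r3 (abs_nonneg _) (by norm_num)
    have k6 := (abs_le.1 k5).1
    have k7 := mul_le_mul k1 r1 (by norm_num) (by linarith)
    norm_num at k6 k7
    linarith
  · rw [Complex.normSq_div, Complex.normSq_mul, div_le_iff₀ hn]
    have := mul_le_mul a4 b4 (Complex.normSq_nonneg _) (by norm_num)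
    norm_num at this
    linarith

theorem cos_ub : (448 : ℝ) / 1000 < Real.cos (21 / 20) := by
  have h1 := Real.one_sub_sq_div_two_le_cos (x := (21 / 20 : ℝ))
  norm_num at h1 ⊢
  linarith

theorem arg_bd {q : ℂ} (h : 0 < q.im) (h1 : |q.re| ≤ 448 / 1000 * q.im) :
    21 / 20 < q.arg ∧ q.arg < π - 21 / 20 := by
  have hq : q ≠ 0 := by
    rintro rfl
    simp at h
  have hn : 0 < ‖q‖ := norm_pos_iff.2 hq
  have h2 : q.im ≤ ‖q‖ := Complex.im_le_norm q
  have h3 : |Real.cos q.arg| ≤ 448 / 1000 := by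
    rw [Complex.cos_arg hq, abs_div, abs_of_pos hn, div_le_iff₀ hn]
    linarith
  obtain ⟨h4, h5⟩ := abs_le.1 h3
  have h6 : 0 ≤ q.arg := Complex.arg_nonneg_iff.2 h.le
  have h7 : q.arg ≤ π := Complex.arg_le_pi q
  have h8 := cos_ub
  have hpi := Real.pi_gt_three
  constructor
  · by_contra h9
    push Not at h9
    have := Real.cos_le_cos_of_nonneg_of_le_pi h6 (by linarith) h9
    linarith
  · by_contra h9
    push Not at h9
    have := Real.cos_le_cos_of_nonneg_of_le_pi (by linarith : 0 ≤ π - 21 / 20) h7 h9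
    rw [Real.cos_pi_sub] at this
    linarith

theorem at_bd {z : ℂ} (h : 65 / 100 ≤ z.re) (h1 : Complex.normSq z ≤ 112 / 100) :
    21 / 40 < (Complex.arctan z).re ∧ (Complex.arctan z).re < π / 2 - 21 / 40 := by
  have hz : 0 < z.re := by linarith
  have hn : 0 < Complex.normSq (1 - z * Complex.I) := Complex.normSq_pos.2 (den_ne hz)
  have e1 : (qz z).im = 2 * z.re / Complex.normSq (1 - z * Complex.I) := by
    unfold qz
    rw [Complex.div_im, ← sub_div]
    congr 1
    simp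
    ring
  have e2 : (qz z).re = (1 - Complex.normSq z) / Complex.normSq (1 - z * Complex.I) := by
    unfold qz
    rw [Complex.div_re, ← add_div]
    congr 1
    rw [Complex.normSq_apply]
    simp
    ring
  have h2 : z.re * z.re ≤ Complex.normSq z := by
    rw [Complex.normSq_apply]
    linarith [mul_self_nonneg z.im]
  have h3 : |(qz z).re| ≤ 448 / 1000 * (qz z).im := by
    rw [e1, e2, abs_div, abs_of_pos hn, ← mul_div_assoc]
    apply div_le_div_of_nonneg_right _ hn.le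
    rw [abs_le]
    constructor
    · linarith
    · nlinarith
  obtain ⟨h4, h5⟩ := arg_bd (qz_im hz) h3
  rw [at_re]
  constructor <;> linarith

theorem aa_bd {p : ℂ × ℂ} (h1 : RD p.1) (h2 : RD p.2) : 21 / 40 < (aa p).re ∧
    (aa p).re < π / 2 - 21 / 40 := by
  obtain ⟨h3, h4⟩ := ww_bd h1 h2
  exact at_bd h3 h4

end Pool.Agent.N755.EK
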