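import Pool.Agent.N755.EK.Geo

/-!
# The potential on the rectangle (EK/1): the critical equation (helper755)

Most proofs are those of helper496 for `S_SGP`, with `ND` instead of `ND`.
-/

set_option autoImplicit false

namespace Pool.Agent.N755.EK

open Filter Topology Metric Set
open scoped Real
open Pool.Agent.N561
open Pool.Agent.W711.HT (Lg)
open Pool.Agent.N496.VS

/-- points at which everything is holomorphic -/
structure ND (p : ℂ × ℂ) : Prop where
  slit : 1 - Complex.sin (p.1 / 2) ^ 2 * Complex.sin (p.2 / 2) ^ 2 ∈ Complex.slitPlane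
  wre : 0 < (ww p).re
  h1 : (aa p).re + |p.1.re| / 2 < π / 2
  h2 : (aa p).re + |p.2.re| / 2 < π / 2

theorem nd {p : ℂ × ℂ} (h1 : RD p.1) (h2 : RD p.2) : ND p := by
  have h3 := (ww_bd h1 h2).1
  have h4 := (aa_bd h1 h2).2
  have h5 := h1.1
  have h6 := h2.1
  exact ⟨QQ_slit h1 h2, by linarith, by linarith, by linarith⟩

namespace ND

variable {p : ℂ × ℂ} (h : ND p)
include h

theorem re_pos : 0 < (aa p).re := at_re_pos h.wre

theorem re_lt : (aa p).re < π / 2 := at_re_lt h.wre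

theorem memS : aa p ∈ DS := by
  have := Real.pi_pos
  exact ⟨h.re_pos, by linarith [h.re_lt]⟩

theorem abs1 : |(aa p + p.1 / 2).re| < π / 2 ∧ |(aa p - p.1 / 2).re| < π / 2 := by
  have e1 : (aa p + p.1 / 2).re = (aa p).re + p.1.re / 2 := by simp
  have e2 : (aa p - p.1 / 2).re = (aa p).re - p.1.re / 2 := by simp
  rw [e1, e2]
  have h1 := h.h1
  have h2 := h.re_pos
  have h3 := neg_abs_le p.1.re
  have h4 := le_abs_self p.1.re
  constructor <;> rw [abs_lt] <;> constructor <;> linarith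

theorem abs2 : |(aa p + p.2 / 2).re| < π / 2 ∧ |(aa p - p.2 / 2).re| < π / 2 := by
  have e1 : (aa p + p.2 / 2).re = (aa p).re + p.2.re / 2 := by simp
  have e2 : (aa p - p.2 / 2).re = (aa p).re - p.2.re / 2 := by simp
  rw [e1, e2]
  have h1 := h.h2
  have h2 := h.re_pos
  have h3 := neg_abs_le p.2.re
  have h4 := le_abs_self p.2.re
  constructor <;> rw [abs_lt] <;> constructor <;> linarith

theorem mem1 : aa p + p.1 / 2 ∈ DL := by
  have h1 := h.abs1.1
  have := Real.pi_pos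
  exact ⟨by linarith, Or.inr h1⟩

theorem mem2 : aa p - p.1 / 2 ∈ DL := by
  have h1 := h.abs1.2
  have := Real.pi_pos
  exact ⟨by linarith, Or.inr h1⟩

theorem mem3 : aa p + p.2 / 2 ∈ DL := by
  have h1 := h.abs2.1
  have := Real.pi_pos
  exact ⟨by linarith, Or.inr h1⟩

theorem mem4 : aa p - p.2 / 2 ∈ DL := by
  have h1 := h.abs2.2
  have := Real.pi_pos
  exact ⟨by linarith, Or.inr h1⟩

theorem ana : AnalyticAt ℂ aa p := aa_analytic h.slit h.wre

end ND

theorem ww_sq {p : ℂ × ℂ} (h : ND p) : ww p ^ 2 * (1 - Complex.sin (p.1 / 2) ^ 2 *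
    Complex.sin (p.2 / 2) ^ 2) = Complex.cos (p.1 / 2) ^ 2 * Complex.cos (p.2 / 2) ^ 2 := by
  unfold ww
  have h0 := Complex.slitPlane_ne_zero h.slit
  set Q := 1 - Complex.sin (p.1 / 2) ^ 2 * Complex.sin (p.2 / 2) ^ 2
  have e : (Q ^ (1 / 2 : ℂ)) ^ 2 = Q := by
    rw [← Complex.cpow_nat_mul]
    norm_num
  rw [div_pow, e]
  field_simp

theorem base_eq {p : ℂ × ℂ} (h : ND p) : Complex.cos (aa p) ^ 2 *
    (Complex.cos (p.1 / 2) ^ 2 + Complex.cos (p.2 / 2) ^ 2) = 1 - Complex.sin (p.1 / 2) ^ 2 *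
      Complex.sin (p.2 / 2) ^ 2 := by
  have h1 := ww_sq h
  have h2 : Complex.cos (aa p) ^ 2 * (1 + ww p ^ 2) = 1 := at_cos_sq h.wre
  have h3 : 1 - Complex.sin (p.1 / 2) ^ 2 * Complex.sin (p.2 / 2) ^ 2 +
      Complex.cos (p.1 / 2) ^ 2 * Complex.cos (p.2 / 2) ^ 2 =
      Complex.cos (p.1 / 2) ^ 2 + Complex.cos (p.2 / 2) ^ 2 := by
    rw [sin_two, sin_two]
    ring
  rw [← h3, ← h1]
  set Q := 1 - Complex.sin (p.1 / 2) ^ 2 * Complex.sin (p.2 / 2) ^ 2
  linear_combination Q * h2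

theorem den_nz {p : ℂ × ℂ} (h : ND p) : 2 + Complex.cos p.1 + Complex.cos p.2 ≠ 0 := by
  intro h0
  have h1 := base_eq h
  have e : 2 + Complex.cos p.1 + Complex.cos p.2 =
      2 * (Complex.cos (p.1 / 2) ^ 2 + Complex.cos (p.2 / 2) ^ 2) := by
    rw [cos_two p.1, cos_two p.2]
    ring
  rw [e] at h0
  have h2 : Complex.cos (p.1 / 2) ^ 2 + Complex.cos (p.2 / 2) ^ 2 = 0 := by
    simpa using h0
  rw [h2, mul_zero] at h1
  exact Complex.slitPlane_ne_zero h.slit h1.symm

theorem cC {p : ℂ × ℂ} (h : ND p) : Complex.cos (2 * aa p) *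
    (2 + Complex.cos p.1 + Complex.cos p.2) = 1 - Complex.cos p.1 * Complex.cos p.2 := by
  have h1 := base_eq h
  rw [Complex.cos_two_mul, cos_two p.1, cos_two p.2]
  rw [sin_two, sin_two] at h1
  linear_combination 4 * h1

theorem EE_exp {p : ℂ × ℂ} (h : ND p) : Complex.exp (EE p) = 1 := by
  have n1 := Complex.slitPlane_ne_zero (DL_slit h.mem1)
  have n2 := Complex.slitPlane_ne_zero (DL_slit h.mem2)
  have n3 := Complex.slitPlane_ne_zero (DL_slit h.mem3)
  have n4 := Complex.slitPlane_ne_zero (DL_slit h.mem4)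
  have n5 := Complex.slitPlane_ne_zero (DS_slit h.memS)
  unfold EE
  rw [Complex.exp_sub, Complex.exp_add, Complex.exp_add, Complex.exp_add, Complex.exp_log n1,
    Complex.exp_log n2, Complex.exp_log n3, Complex.exp_log n4]
  have e4 : Complex.exp (4 * Complex.log (2 * Complex.sin (aa p))) =
      (2 * Complex.sin (aa p)) ^ 4 := by
    have : (4 : ℂ) * Complex.log (2 * Complex.sin (aa p)) =
      ((4 : ℕ) : ℂ) * Complex.log (2 * Complex.sin (aa p)) := by norm_num
    rw [this, Complex.exp_nat_mul, Complex.exp_log n5]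
  rw [e4, div_eq_one_iff_eq (pow_ne_zero 4 n5)]
  have e5 : (2 * Complex.sin (aa p)) ^ 4 = ((2 * Complex.sin (aa p)) ^ 2) ^ 2 := by ring
  rw [e5, sq_sin, prod_cos, mul_assoc, prod_cos]
  have := cC h
  linear_combination 4 * this

theorem EE_cont {p : ℂ × ℂ} (h : ND p) : ContinuousAt EE p := by
  have ha := h.ana.continuousAt
  have h1 : ContinuousAt (fun q : ℂ × ℂ => q.1 / 2) p := by
    have : Continuous (fun q : ℂ × ℂ => q.1 / 2) := by fun_prop
    exact this.continuousAt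
  have h2 : ContinuousAt (fun q : ℂ × ℂ => q.2 / 2) p := by
    have : Continuous (fun q : ℂ × ℂ => q.2 / 2) := by fun_prop
    exact this.continuousAt
  have lc : ∀ {g : ℂ × ℂ → ℂ}, ContinuousAt g p → g p ∈ DL →
      ContinuousAt (fun q => Complex.log (2 * Complex.cos (g q))) p := by
    intro g hg hm
    exact ContinuousAt.clog (f := fun q => 2 * Complex.cos (g q))
      (continuousAt_const.mul (Complex.continuous_cos.continuousAt.comp hg)) (DL_slit hm)
  have hs : ContinuousAt (fun q => Complex.log (2 * Complex.sin (aa q))) p := by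
    exact ContinuousAt.clog (f := fun q => 2 * Complex.sin (aa q))
      (continuousAt_const.mul (Complex.continuous_sin.continuousAt.comp ha)) (DS_slit h.memS)
  unfold EE
  exact ((((lc (ha.add h1) h.mem1).add (lc (ha.sub h1) h.mem2)).add
    (lc (ha.add h2) h.mem3)).add (lc (ha.sub h2) h.mem4)).sub (continuousAt_const.mul hs)

theorem dpsi {p : ℂ × ℂ} (h : ND p) : Complex.log (2 * Complex.cos (aa p + p.1 / 2)) -
    Complex.log (2 * Complex.cos (aa p - p.1 / 2)) = -Lg (2 * π * dst p.1 p.2) p.1 := by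
  have n1 := Complex.slitPlane_ne_zero (DL_slit h.mem1)
  have n2 := Complex.slitPlane_ne_zero (DL_slit h.mem2)
  have h1 := exp_diff n1 n2
  have h2 := arg_lt h.abs1.1
  have h3 := arg_lt h.abs1.2
  have h4 : |(Complex.log (Complex.cos (aa p - p.1 / 2) / Complex.cos (aa p + p.1 / 2))).im| ≤
    π := by
    rw [Complex.log_im]
    exact Complex.abs_arg_le_pi _
  have h5 := eq_zero_of_exp h1 (by
    rw [Complex.add_im, Complex.sub_im]
    refine (abs_add_le _ _).trans_lt ?_
    have := abs_sub (Complex.log (2 * Complex.cos (aa p + p.1 / 2))).im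
      (Complex.log (2 * Complex.cos (aa p - p.1 / 2))).im
    linarith)
  rw [Lg_eq]
  linear_combination h5

/-- the derivative in `φ` -/
theorem dphi {p : ℂ × ℂ} (h : ND p) : Complex.log (2 * Complex.cos (aa p + p.2 / 2)) -
    Complex.log (2 * Complex.cos (aa p - p.2 / 2)) = -Lg (2 * π * dst p.1 p.2) p.2 := by
  have n1 := Complex.slitPlane_ne_zero (DL_slit h.mem3)
  have n2 := Complex.slitPlane_ne_zero (DL_slit h.mem4)
  have h1 := exp_diff n1 n2
  have h2 := arg_lt h.abs2.1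
  have h3 := arg_lt h.abs2.2
  have h4 : |(Complex.log (Complex.cos (aa p - p.2 / 2) / Complex.cos (aa p + p.2 / 2))).im| ≤
    π := by
    rw [Complex.log_im]
    exact Complex.abs_arg_le_pi _
  have h5 := eq_zero_of_exp h1 (by
    rw [Complex.add_im, Complex.sub_im]
    refine (abs_add_le _ _).trans_lt ?_
    have := abs_sub (Complex.log (2 * Complex.cos (aa p + p.2 / 2))).im
      (Complex.log (2 * Complex.cos (aa p - p.2 / 2))).im
    linarith)
  rw [Lg_eq]
  linear_combination h5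

theorem TH_deriv2 {p : ℂ × ℂ} (h : ND p) :
    deriv (deriv (TH p.1 p.2)) (dst p.1 p.2) = TF p.1 p.2 (dst p.1 p.2) := by
  have e := pi_dst p.1 p.2
  have m1 : π * dst p.1 p.2 + p.1 / 2 ∈ DL := by rw [e]; exact h.mem1
  have m2 : π * dst p.1 p.2 - p.1 / 2 ∈ DL := by rw [e]; exact h.mem2
  have m3 : π * dst p.1 p.2 + p.2 / 2 ∈ DL := by rw [e]; exact h.mem3
  have m4 : π * dst p.1 p.2 - p.2 / 2 ∈ DL := by rw [e]; exact h.mem4
  have m5 : π * dst p.1 p.2 ∈ DS := by rw [e]; exact h.memS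
  have c0 : ContinuousAt (fun δ : ℂ => (π : ℂ) * δ) (dst p.1 p.2) := by fun_prop
  have n1 := (c0.add continuousAt_const).eventually (DL_open.mem_nhds m1)
  have n2 := (c0.sub continuousAt_const).eventually (DL_open.mem_nhds m2)
  have n3 := (c0.add continuousAt_const).eventually (DL_open.mem_nhds m3)
  have n4 := (c0.sub continuousAt_const).eventually (DL_open.mem_nhds m4)
  have n5 := c0.eventually (DS_open.mem_nhds m5)
  have ev : deriv (TH p.1 p.2) =ᶠ[𝓝 (dst p.1 p.2)] TE p.1 p.2 := by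
    filter_upwards [n1, n2, n3, n4, n5] with δ a1 a2 a3 a4 a5
    exact (TH_deriv a1 a2 a3 a4 a5).deriv
  rw [ev.deriv_eq]
  exact (TE_deriv m1 m2 m3 m4 m5).deriv

theorem TH_crit {p : ℂ × ℂ} (h : ND p) (hE : EE p = 0) :
    HasDerivAt (TH p.1 p.2) 0 (dst p.1 p.2) := by
  have e := pi_dst p.1 p.2
  have m1 : π * dst p.1 p.2 + p.1 / 2 ∈ DL := by rw [e]; exact h.mem1
  have m2 : π * dst p.1 p.2 - p.1 / 2 ∈ DL := by rw [e]; exact h.mem2
  have m3 : π * dst p.1 p.2 + p.2 / 2 ∈ DL := by rw [e]; exact h.mem3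
  have m4 : π * dst p.1 p.2 - p.2 / 2 ∈ DL := by rw [e]; exact h.mem4
  have m5 : π * dst p.1 p.2 ∈ DS := by rw [e]; exact h.memS
  have := TH_deriv m1 m2 m3 m4 m5
  rwa [TE_dst, hE] at this

theorem sg_an {p : ℂ × ℂ} (h : ND p) : AnalyticAt ℂ (fun p : ℂ × ℂ => sg p.1 p.2) p := by
  have e : (fun p : ℂ × ℂ => sg p.1 p.2) = fun p : ℂ × ℂ =>
      (LL (aa p + p.1 / 2) + LL (aa p - p.1 / 2)) / π +
      (LL (aa p + p.2 / 2) + LL (aa p - p.2 / 2)) / π - 4 * (LS (aa p) / π) := by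
    funext p
    exact sg_eq p.1 p.2
  rw [e]
  have d1 : AnalyticAt ℂ (fun p : ℂ × ℂ => p.1 / 2) p := analyticAt_fst.div_const
  have d2 : AnalyticAt ℂ (fun p : ℂ × ℂ => p.2 / 2) p := analyticAt_snd.div_const
  have k1 : AnalyticAt ℂ (fun p : ℂ × ℂ => LL (aa p + p.1 / 2)) p := AnalyticAt.comp (g := LL)
    (f := fun q : ℂ × ℂ => aa q + q.1 / 2) (LL_an h.mem1) (h.ana.add d1)
  have k2 : AnalyticAt ℂ (fun p : ℂ × ℂ => LL (aa p - p.1 / 2)) p := AnalyticAt.comp (g := LL)
    (f := fun q : ℂ × ℂ => aa q - q.1 / 2) (LL_an h.mem2) (h.ana.sub d1)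
  have k3 : AnalyticAt ℂ (fun p : ℂ × ℂ => LL (aa p + p.2 / 2)) p := AnalyticAt.comp (g := LL)
    (f := fun q : ℂ × ℂ => aa q + q.2 / 2) (LL_an h.mem3) (h.ana.add d2)
  have k4 : AnalyticAt ℂ (fun p : ℂ × ℂ => LL (aa p - p.2 / 2)) p := AnalyticAt.comp (g := LL)
    (f := fun q : ℂ × ℂ => aa q - q.2 / 2) (LL_an h.mem4) (h.ana.sub d2)
  have k5 : AnalyticAt ℂ (fun p => LS (aa p)) p := (LS_an h.memS).comp h.ana
  exact (((k1.add k2).div_const).add ((k3.add k4).div_const)).sub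
    (analyticAt_const.mul k5.div_const)

theorem sg_d1 {p : ℂ × ℂ} (h : ND p) (hE : EE p = 0) :
    HasDerivAt (fun z => sg z p.2) (1 / (2 * π) * (Complex.log (2 * Complex.cos (aa p + p.1 / 2)) -
      Complex.log (2 * Complex.cos (aa p - p.1 / 2)))) p.1 := by
  have hpi := pi_ne
  have h0 : DifferentiableAt ℂ (fun z : ℂ => aa (z, p.2)) p.1 := by
    have h1 : DifferentiableAt ℂ aa (p.1, p.2) := h.ana.differentiableAt
    exact DifferentiableAt.comp (f := fun z : ℂ => (z, p.2)) p.1 h1 (by fun_prop)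
  obtain ⟨d, hd⟩ : ∃ d, HasDerivAt (fun z : ℂ => aa (z, p.2)) d p.1 := ⟨_, h0.hasDerivAt⟩
  have i2 : HasDerivAt (fun z : ℂ => z / 2) (1 / 2 : ℂ) p.1 := (hasDerivAt_id p.1).div_const 2
  have k1 := (LL_deriv h.mem1).comp p.1 (hd.add i2)
  have k2 := (LL_deriv h.mem2).comp p.1 (hd.sub i2)
  have k3 := (LL_deriv h.mem3).comp p.1 (hd.add_const (p.2 / 2))
  have k4 := (LL_deriv h.mem4).comp p.1 (hd.sub_const (p.2 / 2))
  have k5 := (LS_deriv h.memS).comp p.1 hd
  have k := (((k1.add k2).div_const (π : ℂ)).add ((k3.add k4).div_const (π : ℂ))).sub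
    ((k5.div_const (π : ℂ)).const_mul 4)
  refine (k.congr_deriv ?_).congr_of_eventuallyEq (Eventually.of_forall fun z => ?_)
  · unfold EE at hE
    change Complex.log (2 * Complex.cos (aa p + p.1 / 2)) + _ + _ + _ - _ = 0 at hE
    generalize Complex.log (2 * Complex.cos (aa p + p.1 / 2)) = A1 at hE ⊢
    generalize Complex.log (2 * Complex.cos (aa p - p.1 / 2)) = A2 at hE ⊢
    generalize Complex.log (2 * Complex.cos (aa p + p.2 / 2)) = A3 at hE ⊢
    generalize Complex.log (2 * Complex.cos (aa p - p.2 / 2)) = A4 at hE ⊢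
    generalize Complex.log (2 * Complex.sin (aa p)) = A5 at hE ⊢
    field_simp
    linear_combination 2 * d * hE
  · change sg z p.2 = _
    rw [sg_eq]
    rfl

theorem sg_d2 {p : ℂ × ℂ} (h : ND p) (hE : EE p = 0) :
    HasDerivAt (fun z => sg p.1 z) (1 / (2 * π) * (Complex.log (2 * Complex.cos (aa p + p.2 / 2)) -
      Complex.log (2 * Complex.cos (aa p - p.2 / 2)))) p.2 := by
  have hpi := pi_ne
  have h0 : DifferentiableAt ℂ (fun z : ℂ => aa (p.1, z)) p.2 := by
    have h1 : DifferentiableAt ℂ aa (p.1, p.2) := h.ana.differentiableAt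
    exact DifferentiableAt.comp (f := fun z : ℂ => (p.1, z)) p.2 h1 (by fun_prop)
  obtain ⟨d, hd⟩ : ∃ d, HasDerivAt (fun z : ℂ => aa (p.1, z)) d p.2 := ⟨_, h0.hasDerivAt⟩
  have i2 : HasDerivAt (fun z : ℂ => z / 2) (1 / 2 : ℂ) p.2 := (hasDerivAt_id p.2).div_const 2
  have k1 := (LL_deriv h.mem1).comp p.2 (hd.add_const (p.1 / 2))
  have k2 := (LL_deriv h.mem2).comp p.2 (hd.sub_const (p.1 / 2))
  have k3 := (LL_deriv h.mem3).comp p.2 (hd.add i2)
  have k4 := (LL_deriv h.mem4).comp p.2 (hd.sub i2)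
  have k5 := (LS_deriv h.memS).comp p.2 hd
  have k := (((k1.add k2).div_const (π : ℂ)).add ((k3.add k4).div_const (π : ℂ))).sub
    ((k5.div_const (π : ℂ)).const_mul 4)
  refine (k.congr_deriv ?_).congr_of_eventuallyEq (Eventually.of_forall fun z => ?_)
  · unfold EE at hE
    generalize Complex.log (2 * Complex.cos (aa p + p.1 / 2)) = A1 at hE ⊢
    generalize Complex.log (2 * Complex.cos (aa p - p.1 / 2)) = A2 at hE ⊢
    generalize Complex.log (2 * Complex.cos (aa p + p.2 / 2)) = A3 at hE ⊢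
    generalize Complex.log (2 * Complex.cos (aa p - p.2 / 2)) = A4 at hE ⊢
    generalize Complex.log (2 * Complex.sin (aa p)) = A5 at hE ⊢
    field_simp
    linear_combination 2 * d * hE
  · change sg p.1 z = _
    rw [sg_eq]
    rfl

theorem f_dcos {ψ φ : ℂ} (hP : ND (ψ, φ)) : Complex.cos (2 * π * dst ψ φ) =
    (1 - Complex.cos ψ * Complex.cos φ) / (2 + Complex.cos ψ + Complex.cos φ) := by
  have h1 := cC hP
  have h2 := den_nz hP
  simp only at h1 h2
  rw [mul_assoc, pi_dst, eq_div_iff h2]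
  exact h1

theorem EE_zero : EE (0, 0) = 0 := by
  have h0 : ww ((0 : ℂ), (0 : ℂ)) = 1 := by
    rw [ww_zero]
    simp
  have ha : aa ((0 : ℂ), (0 : ℂ)) = ((π / 4 : ℝ) : ℂ) := by
    unfold aa
    rw [h0, ← Real.arctan_one, Complex.ofReal_arctan, Complex.ofReal_one]
  have hc : Complex.cos ((π / 4 : ℝ) : ℂ) = Complex.sin ((π / 4 : ℝ) : ℂ) := by
    rw [← Complex.ofReal_cos, ← Complex.ofReal_sin, Real.cos_pi_div_four, Real.sin_pi_div_four]
  unfold EE
  rw [ha]
  simp only [zero_div, add_zero, sub_zero]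
  rw [hc]
  ring

/-- the critical equation on the rectangle -/
theorem EE_all {p : ℂ × ℂ} (h1 : RD p.1) (h2 : RD p.2) : EE p = 0 := by
  have hn : ∀ s ∈ Icc (0 : ℝ) 1, ND ((s : ℂ) * p.1, (s : ℂ) * p.2) := fun s hs =>
    nd (p := ((s : ℂ) * p.1, (s : ℂ) * p.2)) (RD_mul h1 hs.1 hs.2) (RD_mul h2 hs.1 hs.2)
  have key := path_zero (f := fun s : ℝ => EE ((s : ℂ) * p.1, (s : ℂ) * p.2))
    (by
      intro s hs
      have hc : Continuous fun s : ℝ => (((s : ℂ) * p.1, (s : ℂ) * p.2) : ℂ × ℂ) := by fun_prop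
      have := ContinuousAt.comp (f := fun s : ℝ => (((s : ℂ) * p.1, (s : ℂ) * p.2) : ℂ × ℂ))
        (EE_cont (hn s hs)) hc.continuousAt
      exact this.continuousWithinAt)
    (fun s hs => EE_exp (hn s hs))
    (by
      simp only [Complex.ofReal_zero, zero_mul]
      exact EE_zero)
  simpa using key

/-- real parts of the tangent and of the cotangent -/
theorem tan_pos {z : ℂ} (h0 : 0 < z.re) (h1 : z.re < π / 2) :
    0 < (Complex.sin z / Complex.cos z).re ∧ 0 < (Complex.cos z / Complex.sin z).re := by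
  have hs : 0 < Real.sin z.re := Real.sin_pos_of_pos_of_lt_pi h0 (by linarith)
  have hc : 0 < Real.cos z.re := Real.cos_pos_of_mem_Ioo ⟨by linarith, h1⟩
  have h2 := Real.cosh_sq z.im
  have n1 : Complex.cos z ≠ 0 := by
    intro h
    have := cos_re_pos (w := z) (by rw [abs_of_pos h0]; exact h1)
    rw [h] at this
    simp at this
  have n2 : Complex.sin z ≠ 0 := by
    intro h
    have := sin_re_pos (w := z) ⟨h0, by linarith⟩
    rw [h] at this
    simp at this
  have hsc := mul_pos hs hc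
  constructor
  · rw [div_re']
    apply div_pos _ (Complex.normSq_pos.2 n1)
    rw [sin_re, sin_im, cos_re, cos_im]
    have e : Real.sin z.re * Real.cosh z.im * (Real.cos z.re * Real.cosh z.im) +
        Real.cos z.re * Real.sinh z.im * -(Real.sin z.re * Real.sinh z.im) =
        Real.sin z.re * Real.cos z.re := by
      linear_combination Real.sin z.re * Real.cos z.re * h2
    rw [e]
    exact hsc
  · rw [div_re']
    apply div_pos _ (Complex.normSq_pos.2 n2)
    rw [sin_re, sin_im, cos_re, cos_im]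
    have e : Real.cos z.re * Real.cosh z.im * (Real.sin z.re * Real.cosh z.im) +
        -(Real.sin z.re * Real.sinh z.im) * (Real.cos z.re * Real.sinh z.im) =
        Real.sin z.re * Real.cos z.re := by
      linear_combination Real.sin z.re * Real.cos z.re * h2
    rw [e]
    exact hsc

theorem TF_neg {p : ℂ × ℂ} (h1 : RD p.1) (h2 : RD p.2) :
    (TF p.1 p.2 (dst p.1 p.2)).re < 0 := by
  obtain ⟨b1, b2⟩ := aa_bd h1 h2
  have hpi := Real.pi_pos
  have x1 := abs_lt.1 h1.1
  have x2 := abs_lt.1 h2.1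
  have e1 : (aa p + p.1 / 2).re = (aa p).re + p.1.re / 2 := by simp
  have e2 : (aa p - p.1 / 2).re = (aa p).re - p.1.re / 2 := by simp
  have e3 : (aa p + p.2 / 2).re = (aa p).re + p.2.re / 2 := by simp
  have e4 : (aa p - p.2 / 2).re = (aa p).re - p.2.re / 2 := by simp
  have t1 := (tan_pos (z := aa p + p.1 / 2) (by rw [e1]; linarith) (by rw [e1]; linarith)).1
  have t2 := (tan_pos (z := aa p - p.1 / 2) (by rw [e2]; linarith) (by rw [e2]; linarith)).1
  have t3 := (tan_pos (z := aa p + p.2 / 2) (by rw [e3]; linarith) (by rw [e3]; linarith)).1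
  have t4 := (tan_pos (z := aa p - p.2 / 2) (by rw [e4]; linarith) (by rw [e4]; linarith)).1
  have t5 := (tan_pos (z := aa p) (by linarith) (by linarith)).2
  unfold TF
  rw [pi_dst]
  change (-π * (Complex.sin (aa p + p.1 / 2) / Complex.cos (aa p + p.1 / 2) +
    Complex.sin (aa p - p.1 / 2) / Complex.cos (aa p - p.1 / 2) +
    Complex.sin (aa p + p.2 / 2) / Complex.cos (aa p + p.2 / 2) +
    Complex.sin (aa p - p.2 / 2) / Complex.cos (aa p - p.2 / 2)) -
    4 * π * (Complex.cos (aa p) / Complex.sin (aa p)) : ℂ).re < 0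
  have e : (-π * (Complex.sin (aa p + p.1 / 2) / Complex.cos (aa p + p.1 / 2) +
    Complex.sin (aa p - p.1 / 2) / Complex.cos (aa p - p.1 / 2) +
    Complex.sin (aa p + p.2 / 2) / Complex.cos (aa p + p.2 / 2) +
    Complex.sin (aa p - p.2 / 2) / Complex.cos (aa p - p.2 / 2)) -
    4 * π * (Complex.cos (aa p) / Complex.sin (aa p)) : ℂ) =
    ((-π : ℝ) : ℂ) * (Complex.sin (aa p + p.1 / 2) / Complex.cos (aa p + p.1 / 2) +
    Complex.sin (aa p - p.1 / 2) / Complex.cos (aa p - p.1 / 2) +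
    Complex.sin (aa p + p.2 / 2) / Complex.cos (aa p + p.2 / 2) +
    Complex.sin (aa p - p.2 / 2) / Complex.cos (aa p - p.2 / 2)) +
    ((-(4 * π) : ℝ) : ℂ) * (Complex.cos (aa p) / Complex.sin (aa p)) := by
    push_cast
    ring
  rw [e, Complex.add_re, Complex.re_ofReal_mul, Complex.re_ofReal_mul, Complex.add_re,
    Complex.add_re, Complex.add_re]
  have s1 := mul_pos hpi t1
  have s2 := mul_pos hpi t2
  have s3 := mul_pos hpi t3
  have s4 := mul_pos hpi t4
  have s5 := mul_pos hpi t5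
  linarith

end Pool.Agent.N755.EK
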